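import Pool.Agent.Work.MP_db9399_bg.Interface

/-!
# MP_db9399, THEOREM LC: THEOREM BIG with the threshold `(1 + g) Δ` for near-components
(owner helper6; a modification of helper43's project BIG)

The final stage uses LEMU (Work/MP_db9399_lu_helper6/LEMU.lean) instead of CORE. The reserve labels
form a path `0 - 1 - (-1) - 2 - (-2) - .. - l - (-l)` with loops at the two ends `0` and `-l = l+1`.
Sides: `1 .. l` and `l+2 .. 2l`; the rest is bipartite outside the labels `0`, `l+1` and `UH`. The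
vertices which may be missed (once) are those with labels outside `{0, 1, l, l+1}`. See `BLUEPRINT.md`.
-/

set_option autoImplicit false

namespace Pool.Agent.Work.MP_db9399_lc

open Finset Classical
open Pool.Agent.Work.MP_db9399_all (nb)
open Pool.Agent.Work.MP_db9399_px (LWalk hit ee)
open Pool.Agent.Work.MP_db9399_dn (NB IsMat Tot)
open Pool.Agent.Work.MP_db9399_sc (cut Crit Conn Env Fam Rnd Hv)
open Pool.Agent.Work.MP_db9399_bg (den cl LabP Good PN IsPat en enP Sep Near REnv r0 Deep Spr Ok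
  Lbl bx c3f c3 rP rs rs_symm rR eP eR Vc qr qe EndSX HPre Ix NDec VCol UW Rg Jk Ub)
open _root_.MP_db9399_co

universe u

section defs
variable {V : Type u} [Fintype V]

/-- near-regular graphs without almost bipartite parts and without almost complete components -/
structure BL (g ε : ℝ) (G : SimpleGraph V) (d : ℕ) : Prop where
  deg : ∀ v, (nb G v).card ≤ d
  low : ∀ v, (1 - ε) * d ≤ ((nb G v).card : ℝ)
  bip : ∀ S T : Finset V, Disjoint S T → (S.card : ℝ) ≤ (1 + g) * T.card →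
    g * d * T.card ≤ ∑ t ∈ T, ((nb G t \ S).card : ℝ)
  nsc : ∀ C : Finset V, (C.card : ℝ) ≤ (1 + g) * d →
    g * d * C.card ≤ ∑ v ∈ C, ((nb G v \ C).card : ℝ)
  big : 3 * d ≤ Fintype.card V

end defs

section lbl
variable {l m r K K1 : ℕ}

/-- the label belongs to the set `W` of the vertices which may be missed -/
def inM (t : Lbl l m r K K1) : Prop := 2 ≤ t.2.1.val ∧ t.2.1.val ≠ l ∧ t.2.1.val ≠ l + 1

end lbl

section ctx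
variable {V : Type u} [Fintype V] {l m r K K1 : ℕ}

/-- one more round is possible -/
def OneRound (g δ : ℝ) (G : SimpleGraph V) (d : ℕ) (lab : V → Lbl l m r K K1) : Prop :=
  ∀ (F : SimpleGraph V) (a : ZMod (2 * m + 1)) (h : Fin m) (U J : Finset V) (lg : ℕ)
    (Oi : ℕ → Finset V), REnv G F (qr l m d) δ lab (rP l r K K1 a h) (rR l) U J →
    lg * (2 * m + 1) ≤ d → (∀ i < lg, Spr g G d (2 * m + 1) (Vc lab a) (Oi i)) →
    ∃ (M : SimpleGraph V) (O : Finset V), M ≤ F ∧ IsMat M ∧ (∀ v w, M.Adj v w → v ∈ U) ∧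
      (∀ v ∈ U, v ∉ O → (nb M v).Nonempty) ∧ O ⊆ U ∧
      (∀ v ∈ O, (lab v).1 = a ∧ inM (lab v) ∧ ∀ i < lg, v ∉ Oi i) ∧
      Spr g G d (2 * m + 1) (Vc lab a) O

/-- critical sets of the last rounds contain unused vertices of the reserved set -/
def EndCap (g δ : ℝ) (G : SimpleGraph V) (d : ℕ) (lab : V → Lbl l m r K K1) : Prop :=
  ∀ (F : SimpleGraph V) (U L C : Finset V) (qq lg : ℕ)
    (Oi : ZMod (2 * m + 1) → ℕ → Finset V),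
    REnv G F (qe l d) δ lab (eP l m r K K1) (eR l) U ∅ →
    qe l d ≤ qq → (qq : ℝ) ≤ 101 / 100 * qe l d → L ⊆ U → Crit F qq U L C → Conn F C →
    lg * (2 * m + 1) ≤ d → (∀ a, ∀ i < lg, Spr g G d (2 * m + 1) (Vc lab a) (Oi a i)) →
    g / 40 * C.card ≤ ((C.filter (fun v => inM (lab v) ∧ ∀ a, ∀ i < lg, v ∉ Oi a i)).card : ℝ)

/-- `wv u b` = partner of `u ∈ UH` in the colour `b`; colours `e x` and `e1 y`; every neighbour of
`u` with label in `inM` is a partner in a colour `e x` -/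
structure UPar {k w w1 : ℕ} (G : SimpleGraph V) (d : ℕ) (δ : ℝ) (UH : Finset V)
    (c0 tu : V → Fin k) (lab : V → Lbl l m r K K1) (e : Ix m w → Fin k)
    (e1 : Fin (K1 + 1) × Fin (K1 + 1) × Fin w1 → Fin k) (c : V → Fin k)
    (wv : V → Fin k → V) : Prop where
  adj : ∀ u ∈ UH, ∀ b, b ≠ c0 u → b ≠ tu u → (b ∈ Set.range e ∨ b ∈ Set.range e1) →
    G.Adj u (wv u b) ∧ wv u b ∉ UH ∧ c (wv u b) ≠ b
  inj : ∀ u ∈ UH, ∀ b b', b ≠ c0 u → b ≠ tu u → b' ≠ c0 u → b' ≠ tu u →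
    (b ∈ Set.range e ∨ b ∈ Set.range e1) → (b' ∈ Set.range e ∨ b' ∈ Set.range e1) →
    wv u b = wv u b' → b = b'
  inj2 : ∀ u ∈ UH, ∀ u' ∈ UH, ∀ b, b ≠ c0 u → b ≠ tu u → b ≠ c0 u' → b ≠ tu u' →
    (b ∈ Set.range e ∨ b ∈ Set.range e1) → wv u b = wv u' b → u = u'
  cel : ∀ u ∈ UH, ∀ x, e x ≠ c0 u → e x ≠ tu u → (lab (wv u (e x))).1 ∈ c3 x.1 x.2.1
  spl : ∀ u ∈ UH, ∀ y, e1 y ≠ c0 u → e1 y ≠ tu u → (lab (wv u (e1 y))).2.1 = 0 ∧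
    (lab (wv u (e1 y))).2.2.2.2.2 ≠ y.1 ∧ (lab (wv u (e1 y))).2.2.2.2.2 ≠ y.2.1
  sat : ∀ u ∈ UH, ∀ v, G.Adj u v → v ∉ UH → inM (lab v) →
    ∃ x, e x ≠ c0 u ∧ e x ≠ tu u ∧ wv u (e x) = v
  spr : ∀ v b, (b ∈ Set.range e ∨ b ∈ Set.range e1) →
    ((nb G v ∩ UW UH c0 tu wv b).card : ℝ) ≤ δ * d

/-- all edges between vertices outside `UH` which are neither reserve edges nor in the
near-decomposition -/
structure Lft {w w1 : ℕ} (G : SimpleGraph V) (UH : Finset V) (lab : V → Lbl l m r K K1)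
    (Nd : Ix m w → SimpleGraph V)
    (Kk : Fin (K1 + 1) × Fin (K1 + 1) × Fin w1 → SimpleGraph V) : Prop where
  le : ∀ y, Kk y ≤ G
  mat : ∀ y, IsMat (Kk y)
  mem : ∀ y v v', (Kk y).Adj v v' → v ∉ UH ∧ ¬ (Rg G UH lab).Adj v v' ∧
    ((lab v).2.2.2.2.2 = y.1 ∨ (lab v).2.2.2.2.2 = y.2.1)
  dis : ∀ y y', y ≠ y' → ∀ v v', (Kk y).Adj v v' → ¬ (Kk y').Adj v v'
  new : ∀ y v v', (Kk y).Adj v v' → ∀ x, ¬ (Nd x).Adj v v'
  all : ∀ v v', v ∉ UH → v' ∉ UH → G.Adj v v' → ¬ (Rg G UH lab).Adj v v' →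
    (∃ x, (Nd x).Adj v v') ∨ ∃ y, (Kk y).Adj v v'

/-- the result of the rounds of the colours `e x` -/
structure P0R {k w : ℕ} (g : ℝ) (G : SimpleGraph V) (d : ℕ) (UH : Finset V) (c0 tu : V → Fin k)
    (lab : V → Lbl l m r K K1) (e : Ix m w → Fin k) (c : V → Fin k) (wv : V → Fin k → V)
    (Nd M : Ix m w → SimpleGraph V) (O : Ix m w → Finset V) : Prop where
  le : ∀ x v v', (M x).Adj v v' → (Rg G UH lab).Adj v v' ∧ v ∈ Ub UH c0 tu lab e c wv Nd x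
  mat : ∀ x, IsMat (M x)
  dis : ∀ x x', x ≠ x' → ∀ v v', (M x).Adj v v' → ¬ (M x').Adj v v'
  cov : ∀ x, ∀ v ∈ Ub UH c0 tu lab e c wv Nd x, v ∉ O x → (nb (M x) v).Nonempty
  OU : ∀ x, ∀ v ∈ O x, v ∉ UH ∧ (lab v).1 = x.1 ∧ inM (lab v)
  Od : ∀ x x', x ≠ x' → Disjoint (O x) (O x')
  spr : ∀ x, Spr g G d (2 * m + 1) (Vc lab x.1) (O x)

/-- the result of the rounds of the colours `e1 y`: reserve matchings `M1 y` covering everything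
except `O1 y` -/
structure PeR {k w w1 : ℕ} (G : SimpleGraph V) (UH : Finset V) (c0 tu : V → Fin k)
    (lab : V → Lbl l m r K K1) (e1 : Fin (K1 + 1) × Fin (K1 + 1) × Fin w1 → Fin k)
    (wv : V → Fin k → V) (Kk : Fin (K1 + 1) × Fin (K1 + 1) × Fin w1 → SimpleGraph V)
    (M : Ix m w → SimpleGraph V) (O : Ix m w → Finset V)
    (M1 : Fin (K1 + 1) × Fin (K1 + 1) × Fin w1 → SimpleGraph V)
    (O1 : Fin (K1 + 1) × Fin (K1 + 1) × Fin w1 → Finset V) : Prop where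
  le : ∀ y v v', (M1 y).Adj v v' → (Rg G UH lab).Adj v v' ∧ v ∉ UW UH c0 tu wv (e1 y) ∧
    ¬ (nb (Kk y) v).Nonempty
  mat : ∀ y, IsMat (M1 y)
  dis : ∀ y y', y ≠ y' → ∀ v v', (M1 y).Adj v v' → ¬ (M1 y').Adj v v'
  new : ∀ y v v', (M1 y).Adj v v' → ∀ x, ¬ (M x).Adj v v'
  cov : ∀ y v, v ∉ UH → v ∉ UW UH c0 tu wv (e1 y) → ¬ (nb (Kk y) v).Nonempty → v ∉ O1 y →
    (nb (M1 y) v).Nonempty
  OW : ∀ y, ∀ v ∈ O1 y, v ∉ UH ∧ inM (lab v)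
  O1d : ∀ y y', y ≠ y' → Disjoint (O1 y) (O1 y')
  Od : ∀ y x, Disjoint (O1 y) (O x)

end ctx

/-! ## Blocks. LAB, CODX, TRF, SXR, PAT, DEEPF, HIT2, TUT2, FAC are those of BIG. -/

/-- SXP (from `MP_db9399_bg.Stmt_TRF`; the proof of BIG with the new structure). -/
def Stmt_SXP : Prop :=
  ∀ (g : ℝ) (n B L : ℕ), 0 < g → ∃ c : ℝ, 0 < c ∧ c ≤ 1 ∧ ∀ M : ℕ, 0 < M →
    ∃ (σ c1 ε0 : ℝ) (d0 : ℕ), 0 < σ ∧ 0 < c1 ∧ 0 < ε0 ∧
    ∀ {T β : Type} [Fintype T] [Fintype β] (P : β → Finset T) (R : β → β → Prop) (p : ℝ)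
      {V : Type u} [Fintype V] (G : SimpleGraph V) (d : ℕ) (lab : V → T) (A B' : Finset V),
      IsPat P R n L p → Fintype.card β ≤ B → Fintype.card T = M → d0 ≤ d → BL g ε0 G d →
      LabP G d σ c1 lab → Disjoint A B' → A ∪ B' ⊆ cl lab (univ.biUnion P) →
      c * (n * p * d) * ((A.card : ℝ) + B'.card) ≤ enP G lab P R A B'

/-- T1 (from `MP_db9399_bg.Stmt_TRF`): critical sets come from near-components of `G`. -/
def Stmt_T1 : Prop :=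
  ∀ (g ε : ℝ) (n B L : ℕ), 0 < g → 0 < ε → ∃ δ : ℝ, 0 < δ ∧ ∀ M : ℕ, 0 < M →
    ∃ (σ c1 ε0 : ℝ) (d0 : ℕ), 0 < σ ∧ 0 < c1 ∧ 0 < ε0 ∧
    ∀ {T β : Type} [Fintype T] [Fintype β] (P : β → Finset T) (R : β → β → Prop) (p : ℝ)
      {V : Type u} [Fintype V] (G F : SimpleGraph V) (d qq : ℕ) (lab : V → T)
      (U J L' C : Finset V), IsPat P R n L p → Fintype.card β ≤ B → Fintype.card T = M →
      d0 ≤ d → BL g ε0 G d → LabP G d σ c1 lab → REnv G F (n * p * d) δ lab P R U J →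
      n * p * d ≤ qq → (qq : ℝ) ≤ 101 / 100 * (n * p * d) → L' ⊆ U → Crit F qq U L' C →
      Conn F C →
      ∃ Y : Finset V, (1 + g) * d < Y.card ∧
        (∀ P' Q' : Finset T,
          ee G (Y ∩ cl lab P') (cl lab Q' \ Y) ≤ ε * (den P' * den Q') * d * Y.card) ∧
        (∀ P' : Finset T, |((Y ∩ cl lab P').card : ℝ) - den P' * Y.card| ≤
          ε * den P' * Y.card) ∧
        ∀ b, Near (C ∩ cl lab (P b)) (Y ∩ cl lab (P b)) (ε * p * Y.card)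

/-- GROW: two sets in which `z` is deep have a large intersection. -/
def Stmt_GROW : Prop :=
  ∀ g : ℝ, 0 < g → g ≤ 1 / 10 → ∀ {V : Type u} [Fintype V] (G : SimpleGraph V) (d N : ℕ)
    (Vg C C' : Finset V) (z : V), 0 < N → BL g (g / 100) G d →
    (∀ v, (1 - g / 100) * d / N ≤ ((nb G v ∩ Vg).card : ℝ)) →
    Deep g G d N Vg C z → Deep g G d N Vg C' z →
    (1 + g / 2) * d ≤ N * ((C ∩ C' ∩ Vg).card : ℝ)

/-- RND1 (from SXP, SXR, T1, PAT, GROW, DEEPF, HIT2, TUT2): one round. -/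
def Stmt_RND1 : Prop :=
  ∀ g : ℝ, 0 < g → g ≤ 1 / 10 → ∃ l0 : ℕ, ∀ l : ℕ, l0 ≤ l → ∃ δ : ℝ, 0 < δ ∧
    ∀ m r K K1 : ℕ, 1 ≤ m → ∃ (σ c1 ε0 : ℝ) (d0 : ℕ), 0 < σ ∧ 0 < c1 ∧ 0 < ε0 ∧
    ∀ {V : Type u} [Fintype V] (G : SimpleGraph V) (d : ℕ) (lab : V → Lbl l m r K K1),
      d0 ≤ d → BL g ε0 G d → LabP G d σ c1 lab → OneRound g δ G d lab

/-- CAPE (from T1, PAT, GROW, DEEPF): the last rounds. -/
def Stmt_CAPE : Prop :=
  ∀ g : ℝ, 0 < g → g ≤ 1 / 10 → ∃ l0 : ℕ, ∀ l : ℕ, l0 ≤ l → ∃ δ : ℝ, 0 < δ ∧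
    ∀ m r K K1 : ℕ, 1 ≤ m → ∃ (σ c1 ε0 : ℝ) (d0 : ℕ), 0 < σ ∧ 0 < c1 ∧ 0 < ε0 ∧
    ∀ {V : Type u} [Fintype V] (G : SimpleGraph V) (d : ℕ) (lab : V → Lbl l m r K K1),
      d0 ≤ d → BL g ε0 G d → LabP G d σ c1 lab → EndCap g δ G d lab

/-- NDEC (from `MP_db9399_bg.Stmt_FAC`): the near-decomposition; `2 D ≤ |A|` from `big`. -/
def Stmt_NDEC : Prop :=
  ∀ (g : ℝ) (l m r K K1 : ℕ), 0 < g → 1 ≤ l → 2 ≤ m → ∃ (σ ε0 : ℝ) (d0 : ℕ), 0 < σ ∧ 0 < ε0 ∧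
    ∀ {V : Type u} [Fintype V] (G : SimpleGraph V) (d w : ℕ) (c1 : ℝ) (UH : Finset V)
      (lab : V → Lbl l m r K K1), d0 ≤ d → BL g ε0 G d → LabP G d σ c1 lab →
      (∀ v, (nb G v ∩ UH).card ≤ 2) →
      ((m : ℝ) - 1) * w ≤ (1 - 1 / (2 * m + 1)) * ((1 - 2 / (2 * l + 1)) * d / (2 * m + 1)) →
      ∃ Nd : Ix m w → SimpleGraph V, NDec G UH lab Nd

/-- VCOL (from VCX of MP_db9399_exp): the vertex colouring. -/
def Stmt_VCOL : Prop :=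
  ∀ g : ℝ, 0 < g → g ≤ 1 / 10 → ∃ κ : ℝ, 0 < κ ∧ κ ≤ 1 ∧ ∀ l m r K K1 : ℕ,
    ∃ (σ ε0 : ℝ) (d0 : ℕ), 0 < σ ∧ 0 < ε0 ∧
    ∀ {V : Type u} [Fintype V] (G : SimpleGraph V) (d k w : ℕ) (c1 : ℝ) (UH : Finset V)
      (c0 : V → Fin k) (EH : SimpleGraph V) (tu : V → Fin k) (lab : V → Lbl l m r K K1)
      (e : Ix m w → Fin k) (pal : Fin m × Fin w → Fin (r + 1)), d0 ≤ d → BL g ε0 G d →
      LabP G d σ c1 lab → HPre G UH c0 EH tu → Function.Injective e →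
      (∀ s, (1 - κ) * d ≤
        (2 * m + 1) * (r + 1) * ((univ.filter (fun y => pal y = s)).card : ℝ)) →
      ∃ c : V → Fin k, VCol G UH c0 lab e pal c

/-- UCS (as UCL of BIG, with `S`): from the lists `Al u b ⊆ nb G u` of size `≥ D` and with vertex
degrees `≤ D - t`, where the vertices of `S` have degree `≥ D'` and every list contains at most
`D' - t` vertices of `S`: a random system of neighbours for all colours which uses all neighbours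
in `S`. Mendelsohn-Dulmage: `t` disjoint matchings of colours and neighbours of `u`, all saturating
`I u` and `nb G u ∩ S`; random choice for every `u`. -/
def Stmt_UCS : Prop :=
  ∀ c δ : ℝ, 0 < c → 0 < δ → ∃ d0 : ℕ, ∀ {V : Type u} [Fintype V] (G : SimpleGraph V)
    (d D D' t k : ℕ) (U S : Finset V) (I : V → Finset (Fin k)) (Al : V → Fin k → Finset V),
    d0 ≤ d → c * d ≤ (t : ℝ) → 0 < D' → (∀ v, (nb G v).card ≤ d) →
    (∀ v, (nb G v ∩ U).card ≤ 2) → (∀ u ∈ U, (I u).card ≤ d) →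
    (∀ u ∈ U, ∀ b ∈ I u, Al u b ⊆ nb G u ∧ D ≤ (Al u b).card) →
    (∀ u ∈ U, ∀ v, ((I u).filter (fun b => v ∈ Al u b)).card + t ≤ D) →
    (∀ u ∈ U, ∀ v ∈ nb G u ∩ S, D' ≤ ((I u).filter (fun b => v ∈ Al u b)).card) →
    (∀ u ∈ U, ∀ b ∈ I u, (Al u b ∩ S).card + t ≤ D') →
    ∃ f : V → Fin k → V, (∀ u ∈ U, ∀ b ∈ I u, f u b ∈ Al u b) ∧
      (∀ u ∈ U, Set.InjOn (f u) (I u : Set (Fin k))) ∧
      (∀ u ∈ U, ∀ v ∈ nb G u ∩ S, ∃ b ∈ I u, f u b = v) ∧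
      ∀ v b, (((nb G v).filter (fun x => ∃ u ∈ U, b ∈ I u ∧ f u b = x)).card : ℝ) ≤ δ * d

/-- UPAR (from UCS and `MP_db9399_bg.Stmt_UCL`): the partners of the vertices of `UH`. -/
def Stmt_UPAR : Prop :=
  ∀ (l m r K K1 : ℕ) (δ : ℝ), 0 < δ → 20 ≤ l → 1 ≤ m → 2 * l + 1 ≤ r → 4 ≤ K1 →
    ∃ (σ ε0 : ℝ) (d0 : ℕ), 0 < σ ∧ 0 < ε0 ∧
    ∀ {V : Type u} [Fintype V] (G : SimpleGraph V) (d k w w1 : ℕ) (g c1 : ℝ) (UH : Finset V)
      (c0 : V → Fin k) (EH : SimpleGraph V) (tu : V → Fin k) (lab : V → Lbl l m r K K1)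
      (e : Ix m w → Fin k) (e1 : Fin (K1 + 1) × Fin (K1 + 1) × Fin w1 → Fin k)
      (pal : Fin m × Fin w → Fin (r + 1)) (c : V → Fin k), d0 ≤ d → BL g ε0 G d →
      LabP G d σ c1 lab → HPre G UH c0 EH tu → Function.Injective e → Function.Injective e1 →
      (∀ x y, e x ≠ e1 y) → VCol G UH c0 lab e pal c →
      (2 * (m : ℝ) + 1) * m * w ≤ (1 - 3 / (2 * (2 * l + 1))) * d →
      (1 - 3 / (2 * l + 1)) * d ≤ (2 * (m : ℝ) + 1) * m * w →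
      ((K1 : ℝ) + 1) ^ 2 * w1 ≤ d / (4 * (2 * l + 1)) →
      ∃ wv : V → Fin k → V, UPar G d δ UH c0 tu lab e e1 c wv

/-- LEFT (from `vizing`, Work/MP_db9399_all_helper34/VIZ.lean): all leftover non-reserve edges. -/
def Stmt_LEFT : Prop :=
  ∀ l m r K K1 : ℕ, 1 ≤ l → 2 ≤ m → ∃ (σ ε0 : ℝ) (d0 : ℕ), 0 < σ ∧ 0 < ε0 ∧
    ∀ {V : Type u} [Fintype V] (G : SimpleGraph V) (d w w1 : ℕ) (g c1 : ℝ) (UH : Finset V)
      (lab : V → Lbl l m r K K1) (Nd : Ix m w → SimpleGraph V), d0 ≤ d → BL g ε0 G d →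
      LabP G d σ c1 lab → NDec G UH lab Nd →
      (1 - 2 / (2 * m + 1)) * ((1 - 2 / (2 * l + 1)) * d / (2 * m + 1)) ≤ ((m : ℝ) - 1) * w →
      6 * (d : ℝ) / (2 * m + 1) ≤ w1 →
      ∃ Kk : Fin (K1 + 1) × Fin (K1 + 1) × Fin w1 → SimpleGraph V, Lft G UH lab Nd Kk

/-- P0ALL: the rounds of the colours `e x`. -/
def Stmt_P0ALL : Prop :=
  ∀ (g δ : ℝ) (l m r K K1 : ℕ), 0 < g → 0 < δ → δ ≤ 1 / 10 → 1 ≤ l → 4 ≤ m →
    1000 * (2 * (l : ℝ) + 1) ≤ δ * (2 * m + 1) → 1000 * (2 * (l : ℝ) + 1) ≤ δ * (r + 1) →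
    1000 * (2 * (l : ℝ) + 1) ≤ δ * (K + 1) →
    ∃ (σ ε0 δ2 : ℝ) (d0 : ℕ), 0 < σ ∧ 0 < ε0 ∧ 0 < δ2 ∧
    ∀ {V : Type u} [Fintype V] (G : SimpleGraph V) (d k w w1 : ℕ) (c1 : ℝ) (UH : Finset V)
      (c0 : V → Fin k) (EH : SimpleGraph V) (tu : V → Fin k) (lab : V → Lbl l m r K K1)
      (e : Ix m w → Fin k) (e1 : Fin (K1 + 1) × Fin (K1 + 1) × Fin w1 → Fin k)
      (pal : Fin m × Fin w → Fin (r + 1)) (c : V → Fin k) (wv : V → Fin k → V)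
      (Nd : Ix m w → SimpleGraph V), d0 ≤ d → BL g ε0 G d → LabP G d σ c1 lab →
      OneRound g δ G d lab → HPre G UH c0 EH tu → Function.Injective e →
      VCol G UH c0 lab e pal c → UPar G d δ2 UH c0 tu lab e e1 c wv → NDec G UH lab Nd →
      (2 * (m : ℝ) + 1) * m * w ≤ d →
      ∃ (M : Ix m w → SimpleGraph V) (O : Ix m w → Finset V),
        P0R g G d UH c0 tu lab e c wv Nd M O

/-- PEALL (from PALL of MP_db9399_sc): the rounds of the colours `e1 y`. -/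
def Stmt_PEALL : Prop :=
  ∀ (g δ cE : ℝ) (l : ℕ), 0 < g → g ≤ 1 / 10 → 0 < δ → 0 < cE → 1 ≤ l →
    ∃ K0 : ℕ, ∀ K1 : ℕ, K0 ≤ K1 → ∃ m0 : ℕ, ∀ m r K : ℕ, m0 ≤ m →
    ∃ (σ ε0 δ2 : ℝ) (d0 : ℕ), 0 < σ ∧ 0 < ε0 ∧ 0 < δ2 ∧
    ∀ {V : Type u} [Fintype V] (G : SimpleGraph V) (d k w w1 : ℕ) (c1 : ℝ) (UH : Finset V)
      (c0 : V → Fin k) (EH : SimpleGraph V) (tu : V → Fin k) (lab : V → Lbl l m r K K1)
      (e : Ix m w → Fin k) (e1 : Fin (K1 + 1) × Fin (K1 + 1) × Fin w1 → Fin k)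
      (c : V → Fin k) (wv : V → Fin k → V) (Nd M : Ix m w → SimpleGraph V)
      (O : Ix m w → Finset V)
      (Kk : Fin (K1 + 1) × Fin (K1 + 1) × Fin w1 → SimpleGraph V), d0 ≤ d → BL g ε0 G d →
      LabP G d σ c1 lab → EndCap g δ G d lab → EndSX cE G d lab → HPre G UH c0 EH tu →
      Function.Injective e1 → UPar G d δ2 UH c0 tu lab e e1 c wv → NDec G UH lab Nd →
      P0R g G d UH c0 tu lab e c wv Nd M O → Lft G UH lab Nd Kk →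
      (2 * (m : ℝ) + 1) * m * w ≤ d → (w1 : ℝ) ≤ 7 * d / (2 * m + 1) →
      ∃ (M1 : Fin (K1 + 1) × Fin (K1 + 1) × Fin w1 → SimpleGraph V)
        (O1 : Fin (K1 + 1) × Fin (K1 + 1) × Fin w1 → Finset V),
        PeR G UH c0 tu lab e1 wv Kk M O M1 O1

/-- ASM (from `MP_db9399_lu.stmt_LEMU`): the total colouring. -/
def Stmt_ASM : Prop :=
  ∀ {V : Type u} [Fintype V] {l m r K K1 : ℕ} (g δ : ℝ) (G : SimpleGraph V) (d k w w1 : ℕ)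
    (UH : Finset V) (c0 : V → Fin k) (EH : SimpleGraph V) (tu : V → Fin k)
    (lab : V → Lbl l m r K K1) (e : Ix m w → Fin k)
    (e1 : Fin (K1 + 1) × Fin (K1 + 1) × Fin w1 → Fin k) (pal : Fin m × Fin w → Fin (r + 1))
    (c : V → Fin k) (wv : V → Fin k → V) (Nd M : Ix m w → SimpleGraph V)
    (O : Ix m w → Finset V) (Kk M1 : Fin (K1 + 1) × Fin (K1 + 1) × Fin w1 → SimpleGraph V)
    (O1 : Fin (K1 + 1) × Fin (K1 + 1) × Fin w1 → Finset V),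
    3 ≤ l → (∀ v, (nb G v).card ≤ d) → d + 2 ≤ k → HPre G UH c0 EH tu → Function.Injective e →
    Function.Injective e1 → (∀ x y, e x ≠ e1 y) → (∀ u ∈ UH, c0 u ∈ Set.range e) →
    (∀ u ∈ UH, tu u ∈ Set.range e) → VCol G UH c0 lab e pal c →
    UPar G d δ UH c0 tu lab e e1 c wv → NDec G UH lab Nd →
    P0R g G d UH c0 tu lab e c wv Nd M O → Lft G UH lab Nd Kk →
    PeR G UH c0 tu lab e1 wv Kk M O M1 O1 →
    ∃ t : V → V → Fin k, Tot G c t ∧ ∀ v v', EH.Adj v v' → t v v' = tu v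

/-! ## The theorem -/

/-- NRM: near-regular graphs (all blocks). -/
def Stmt_NRM : Prop :=
  ∀ g : ℝ, 0 < g → g ≤ 1 / 10 → ∃ (ε0 : ℝ) (d0 : ℕ), 0 < ε0 ∧
    ∀ {V : Type u} [Fintype V] (G : SimpleGraph V) (d k : ℕ) (UH : Finset V)
      (c0 : V → Fin k) (EH : SimpleGraph V) (tu : V → Fin k) (CH : Finset (Fin k)),
      d0 ≤ d → d + 2 ≤ k → BL g ε0 G d → HPre G UH c0 EH tu → (CH.card : ℝ) ≤ (1 - g) * d →
      (∀ u ∈ UH, c0 u ∈ CH ∧ tu u ∈ CH) →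
      ∃ (c : V → Fin k) (t : V → V → Fin k), Tot G c t ∧ (∀ v ∈ UH, c v = c0 v) ∧
        ∀ v v', EH.Adj v v' → t v v' = tu v

/-- EMBB (from EXPANDER of MP_db9399_mad): embedding into a near-regular graph. -/
def Stmt_EMBB : Prop :=
  ∀ g : ℝ, 0 < g → g ≤ 1 / 10 → ∃ g' : ℝ, 0 < g' ∧ g' ≤ g ∧ ∀ ε : ℝ, 0 < ε → ∃ d1 : ℕ,
    ∀ {V : Type u} [Fintype V] (G : SimpleGraph V) (d : ℕ), d1 ≤ d → d ≤ Fintype.card V →
      (∀ v, (nb G v).card ≤ d) →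
      (∀ S T : Finset V, Disjoint S T → (∀ t ∈ T, (1 - g) * d ≤ ((nb G t).card : ℝ)) →
        (S.card : ℝ) ≤ (1 + g) * T.card → g * d * T.card ≤ ∑ t ∈ T, ((nb G t \ S).card : ℝ)) →
      (∀ C : Finset V, (∀ v ∈ C, (1 - g) * d ≤ ((nb G v).card : ℝ)) →
        (C.card : ℝ) ≤ (1 + g) * d → g * d * C.card ≤ ∑ v ∈ C, ((nb G v \ C).card : ℝ)) →
      ∃ (W : Type) (_ : Fintype W) (K : SimpleGraph W) (R : V → W → Prop),
        (∀ w a b, R a w → R b w → a = b) ∧ BL g' ε (MP_db9399_mad.EG G K R) d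

/-- THE THEOREM. -/
def Stmt_MAIN : Prop :=
  ∀ g : ℝ, 0 < g → ∃ d0 : ℕ, ∀ (V : Type u) [Fintype V] (G : SimpleGraph V)
    [DecidableRel G.Adj] (k : ℕ), d0 ≤ G.maxDegree →
    (∀ S T : Finset V, Disjoint S T → (∀ t ∈ T, (1 - g) * G.maxDegree ≤ (G.degree t : ℝ)) →
      (S.card : ℝ) ≤ (1 + g) * T.card →
      g * G.maxDegree * T.card ≤ ((G.interedges T (univ \ S)).card : ℝ)) →
    (∀ C : Finset V, (∀ v ∈ C, (1 - g) * G.maxDegree ≤ (G.degree v : ℝ)) →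
      (C.card : ℝ) ≤ (1 + g) * G.maxDegree →
      g * G.maxDegree * C.card ≤ ((G.interedges C (univ \ C)).card : ℝ)) →
    G.maxDegree + 2 ≤ k →
    ∀ H : G.Subgraph, IsDistThreeMatching H → ∀ (c₀ : V → Fin k) (t₀ : Sym2 V → Fin k),
      IsTotalColoring H.spanningCoe c₀ t₀ →
      ((c₀ '' H.verts ∪ t₀ '' H.edgeSet).ncard : ℝ) ≤ (1 - g) * G.maxDegree →
      ∃ (c : V → Fin k) (t : Sym2 V → Fin k), IsTotalColoring G c t ∧
        (∀ v ∈ H.verts, c v = c₀ v) ∧ ∀ e ∈ H.edgeSet, t e = t₀ e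

/-- FIND (compare FIND of BIG). -/
def Stmt_FIND : Prop := Stmt_NRM.{u} → Stmt_EMBB.{u} → Stmt_MAIN.{u}

end Pool.Agent.Work.MP_db9399_lc
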