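import Pool.Agent.Work.MP_db9399_bg_helper67.LAB
import Pool.Agent.Work.MP_db9399_bg_helper67.CODX
import Pool.Agent.Work.MP_db9399_bg_helper96.TRF
import Pool.Agent.Work.MP_db9399_bg_helper21.SXR
import Pool.Agent.Work.MP_db9399_bg_helper43.PAT
import Pool.Agent.Work.MP_db9399_bg_helper27.DEEPF
import Pool.Agent.Work.MP_db9399_bg_helper59.HIT2
import Pool.Agent.Work.MP_db9399_bg_helper29.TUT2
import Pool.Agent.Work.MP_db9399_bg_helper31.FAC
import Pool.Agent.Work.MP_db9399_bg_helper99.UCL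
import Pool.Agent.Work.MP_db9399_lc_helper21.SXP
import Pool.Agent.Work.MP_db9399_lc_helper63.T1
import Pool.Agent.Work.MP_db9399_lc_helper85.GROW
import Pool.Agent.Work.MP_db9399_lc_helper29.RND1
import Pool.Agent.Work.MP_db9399_lc_helper29.CAPE
import Pool.Agent.Work.MP_db9399_lc_helper54.NDEC
import Pool.Agent.Work.MP_db9399_lc_helper99.VCOL
import Pool.Agent.Work.MP_db9399_lc_helper29.UCS
import Pool.Agent.Work.MP_db9399_lc_helper84.UPAR
import Pool.Agent.Work.MP_db9399_lc_helper34.LEFT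
import Pool.Agent.Work.MP_db9399_lc_helper54.P0ALL
import Pool.Agent.Work.MP_db9399_lc_helper90.PEALL
import Pool.Agent.Work.MP_db9399_lc_helper6.ASM
import Pool.Agent.Work.MP_db9399_lc_helper99.NRM
import Pool.Agent.Work.MP_db9399_lc_helper85.EMBB
import Pool.Agent.Work.MP_db9399_lc_helper85.FIND

/-!
# MP_db9399, THEOREM LC: assembly
-/

set_option autoImplicit false

namespace Pool.Agent.Work.MP_db9399_lc

universe u

open Pool.Agent.Work

theorem sxp_holds : Stmt_SXP.{u} :=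
  helper21.stmt_SXP (MP_db9399_bg.helper96.stmt_TRF MP_db9399_bg.helper67.stmt_CODX)

theorem t1_holds : Stmt_T1.{u} :=
  helper63.stmt_T1 (MP_db9399_bg.helper96.stmt_TRF MP_db9399_bg.helper67.stmt_CODX)

theorem nrm_holds : Stmt_NRM.{u} :=
  helper99.stmt_NRM MP_db9399_bg.helper67.stmt_LAB sxp_holds MP_db9399_bg.helper43.stmt_PAT
    (helper29.stmt_RND1 sxp_holds MP_db9399_bg.helper21.stmt_SXR t1_holds
      MP_db9399_bg.helper43.stmt_PAT helper85.stmt_GROW MP_db9399_bg.helper27.stmt_DEEPF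
      MP_db9399_bg.helper59.stmt_HIT2 MP_db9399_bg.helper29.stmt_TUT2)
    (helper29.stmt_CAPE t1_holds MP_db9399_bg.helper43.stmt_PAT helper85.stmt_GROW
      MP_db9399_bg.helper27.stmt_DEEPF)
    (helper54.stmt_NDEC MP_db9399_bg.helper31.stmt_FAC) helper99.stmt_VCOL
    (helper84.stmt_UPAR helper29.stmt_UCS MP_db9399_bg.helper99.stmt_UCL) helper34.stmt_LEFT
    helper54.stmt_P0ALL helper90.stmt_PEALL helper6.stmt_ASM

theorem stmt_MAIN : Stmt_MAIN.{u} := helper85.stmt_FIND nrm_holds helper85.stmt_EMBB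

end Pool.Agent.Work.MP_db9399_lc
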